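import Pool.Agent.R563.RRam.Main1
import Pool.Agent.R563.RRam.Prob4

set_option autoImplicit false

/-!
# MP_9b7f10_lc, Q1: random linear systems in nearly quadratic time

In the model of computation of the question (exact real arithmetic with comparisons, unit cost
per operation) there is one algorithm which, for each of the three ensembles (standard Gaussian,
uniform on `{-1, 1}`, uniform on `{0, 1}`), solves `A x = b` to accuracy `ε` with at most
`C n² log² (n / ε)` operations, for all `A` in an event of probability `1 - o(1)`, all `b`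
and all `ε ∈ (0, 1)`.
-/

namespace Pool.Agent.Results.MP_9b7f10_lc.NearQuadraticSolver

open MeasureTheory ProbabilityTheory Filter Topology Pool.Agent.R563.RRam
open scoped ENNReal

theorem result :
    ∃ (solve : ℕ × List (List ℝ) × List ℝ × ℝ → List ℝ)
      (cost : ℕ × List (List ℝ) × List ℝ × ℝ → ℕ),
      -- `solve` is computed by an algorithm with `cost` operations
      Computes solve (fun q => (cost q : ℕ∞)) ∧
      -- for each of the three ensembles
      ∀ μ : Measure ℝ, (μ = gaussianReal 0 1 ∨
          μ = (1 / 2 : ℝ≥0∞) • (Measure.dirac (-1) + Measure.dirac 1) ∨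
          μ = (1 / 2 : ℝ≥0∞) • (Measure.dirac 0 + Measure.dirac 1)) →
        ∃ (E : (n : ℕ) → Set (Fin n → Fin n → ℝ)) (C : ℝ),
          -- events of probability tending to one
          (∀ n, MeasurableSet (E n)) ∧
          Tendsto (fun n => (Measure.pi fun _ : Fin n => Measure.pi fun _ : Fin n => μ) (E n))
            atTop (𝓝 1) ∧
          -- on which the algorithm solves all systems to accuracy `ε` in nearly quadratic time
          ∀ (n : ℕ), ∀ A ∈ E n, ∀ (b : Fin n → ℝ) (ε : ℝ), 0 < ε → ε < 1 →
            (∃ x : Fin n → ℝ,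
              solve (n, List.ofFn (fun i => List.ofFn (A i)), List.ofFn b, ε) = List.ofFn x ∧
              ‖(WithLp.toLp 2 (Matrix.mulVec (Matrix.of A) x - b) : EuclideanSpace ℝ (Fin n))‖
                ≤ ε * ‖(WithLp.toLp 2 b : EuclideanSpace ℝ (Fin n))‖) ∧
            (cost (n, List.ofFn (fun i => List.ofFn (A i)), List.ofFn b, ε) : ℝ)
              ≤ C * (n : ℝ) ^ 2 * Real.log (n / ε) ^ 2 := by
  obtain ⟨cost, C, h1, hC, h2⟩ := solve_cost
  refine ⟨solve, cost, h1, fun μ hμ => ?_⟩
  have hnice : Nice μ := by
    rcases hμ with rfl | rfl | rfl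
    · exact nice_gaussian
    · exact nice_twoPoint (a := -1) (b := 1) (by norm_num) (by norm_num) (by norm_num)
    · exact nice_twoPoint (a := 0) (b := 1) (by norm_num) (by norm_num) (by norm_num)
  refine ⟨fun n => if 2 ≤ n then EN n (mm n) else ∅, C, fun n => ?_, ?_, ?_⟩
  · beta_reduce
    split_ifs
    · exact measurableSet_EN n (mm n)
    · exact MeasurableSet.empty
  · refine (tendsto_law_EN hnice).congr' ?_
    filter_upwards [eventually_ge_atTop 2] with n hn
    rw [if_pos hn]
    rfl
  · intro n A hA b ε hε hε1
    beta_reduce at hA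
    by_cases hn : 2 ≤ n
    · rw [if_pos hn] at hA
      obtain ⟨hb, hs⟩ := EN_spec (by omega) hA
      refine ⟨?_, h2 n _ _ ε hn hε hε1⟩
      exact solve_spec (by omega) (Matrix.of A) b hb hs hε hε1
    · rw [if_neg hn] at hA
      exact absurd hA (Set.notMem_empty A)

end Pool.Agent.Results.MP_9b7f10_lc.NearQuadraticSolver
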